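import Mathlib
import Pool.Agent.H884R2.Zeta.Poly

set_option autoImplicit false

/-!
The `ζ`-vectors of the bodies of the class `𝒞_1^d` (MP_86df06_gt, Q2), from the inequalities
between the contents of polytopes in `H884R2/Zeta`.
-/

open Set MeasureTheory Filter
open scoped ENNReal Topology

namespace Pool.Agent.H952R3.Zeta

open Pool.Agent.H884R2.Zeta

/-- `Q n` swallows every interior point of `L` if it approximates `L` from inside. -/
theorem eventually_mem {k : ℕ} {L : Set (Eu k)} {Q : ℕ → Set (Eu k)}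
    (hQ : ∀ n, Convex ℝ (Q n)) (hQc : ∀ n, IsCompact (Q n)) (hQn : ∀ n, (Q n).Nonempty)
    (happ : ∀ ε : ℝ, 0 < ε → ∀ᶠ n in atTop, ∀ y ∈ L, ∃ q ∈ Q n, dist q y < ε)
    {x : Eu k} (hx : x ∈ interior L) : ∀ᶠ n in atTop, x ∈ Q n := by
  rw [mem_interior_iff_mem_nhds, Metric.mem_nhds_iff] at hx
  obtain ⟨r, hr, hxr⟩ := hx
  filter_upwards [happ (r / 2) (by positivity)] with n hn
  by_contra hxn
  obtain ⟨q0, hq0, hmin⟩ := exists_norm_eq_iInf_of_complete_convex (hQn n) (hQc n).isComplete
    (hQ n) x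
  rw [norm_eq_iInf_iff_real_inner_le_zero (hQ n) hq0] at hmin
  set v := x - q0 with hv
  have hv0 : v ≠ 0 := by
    intro h
    apply hxn
    have : x = q0 := sub_eq_zero.1 h
    rwa [this]
  have hvn : 0 < ‖v‖ := norm_pos_iff.2 hv0
  set u := (‖v‖)⁻¹ • v with hu
  have hun : ‖u‖ = 1 := by
    rw [hu, norm_smul, norm_inv, norm_norm, inv_mul_cancel₀ hvn.ne']
  have hy : x + (r / 2) • u ∈ L := by
    apply hxr
    rw [Metric.mem_ball, dist_eq_norm, add_sub_cancel_left, norm_smul, hun, mul_one,
      Real.norm_of_nonneg (by positivity)]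
    linarith
  obtain ⟨q, hq, hdist⟩ := hn _ hy
  have h1 := hmin q hq
  have h2 : inner ℝ u (x + (r / 2) • u - q) ≤ ‖x + (r / 2) • u - q‖ := by
    have := real_inner_le_norm u (x + (r / 2) • u - q)
    rwa [hun, one_mul] at this
  have h3 : inner ℝ u (x + (r / 2) • u - q) = ‖v‖ + r / 2 - (‖v‖)⁻¹ * inner ℝ v (q - q0) := by
    have e : x + (r / 2) • u - q = v + (r / 2) • u - (q - q0) := by rw [hv]; abel
    rw [e, inner_sub_right, inner_add_right, inner_smul_right, real_inner_self_eq_norm_sq, hun]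
    have e1 : inner ℝ u v = ‖v‖ := by
      rw [hu, inner_smul_left, real_inner_self_eq_norm_sq]
      simp only [conj_trivial]
      field_simp
    have e2 : inner ℝ u (q - q0) = (‖v‖)⁻¹ * inner ℝ v (q - q0) := by
      rw [hu, inner_smul_left]
      simp
    rw [e1, e2]
    ring
  have h4 : (‖v‖)⁻¹ * inner ℝ v (q - q0) ≤ 0 :=
    mul_nonpos_of_nonneg_of_nonpos (by positivity) h1
  rw [dist_comm, dist_eq_norm] at hdist
  linarith

/-- lower semicontinuity of the volume -/
theorem volume_le_liminf {k : ℕ} {L : Set (Eu k)} (hL : Convex ℝ L) {Q : ℕ → Set (Eu k)}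
    (hQ : ∀ n, Convex ℝ (Q n)) (hQc : ∀ n, IsCompact (Q n)) (hQn : ∀ n, (Q n).Nonempty)
    (happ : ∀ ε : ℝ, 0 < ε → ∀ᶠ n in atTop, ∀ y ∈ L, ∃ q ∈ Q n, dist q y < ε) :
    volume L ≤ liminf (fun n => volume (Q n)) atTop := by
  have h1 : volume L ≤ volume (interior L) := by
    have h2 : L ⊆ interior L ∪ frontier L := by
      intro x hx
      by_cases h : x ∈ interior L
      · exact Or.inl h
      · exact Or.inr ⟨subset_closure hx, h⟩
    refine (measure_mono h2).trans ((measure_union_le _ _).trans ?_)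
    rw [Convex.addHaar_frontier volume hL, add_zero]
  refine h1.trans ?_
  have h3 : volume (interior L) ≤
      ∫⁻ x, liminf (fun n => (Q n).indicator (fun _ => (1 : ℝ≥0∞)) x) atTop := by
    rw [← lintegral_indicator_one isOpen_interior.measurableSet]
    apply lintegral_mono
    intro x
    by_cases hx : x ∈ interior L
    · have h4 := eventually_mem hQ hQc hQn happ hx
      have h5 : (interior L).indicator (1 : Eu k → ℝ≥0∞) x = 1 := by
        rw [Set.indicator_of_mem hx]; rfl
      show (interior L).indicator (1 : Eu k → ℝ≥0∞) x ≤ _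
      rw [h5]
      refine le_liminf_of_le (by isBoundedDefault) ?_
      filter_upwards [h4] with n hn
      rw [Set.indicator_of_mem hn]
    · show (interior L).indicator (1 : Eu k → ℝ≥0∞) x ≤ _
      rw [Set.indicator_of_notMem hx]
      exact zero_le
  refine h3.trans ((lintegral_liminf_le
    (fun n => measurable_const.indicator (hQc n).measurableSet)).trans (le_of_eq ?_))
  congr 1
  ext n
  exact (lintegral_indicator_const (hQc n).measurableSet 1).trans (one_mul _)

/-- from Hausdorff convergence to approximation of the points of `K` -/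
theorem approx_of_tendsto {d : ℕ} {K : Set (Eu d)} (hK : IsCompact K) (hKn : K.Nonempty)
    {P : ℕ → Set (Eu d)} (hP : ∀ n, IsPolytope (P n))
    (h : Tendsto (fun n => Metric.hausdorffDist (P n) K) atTop (𝓝 0)) {ε : ℝ} (hε : 0 < ε) :
    ∀ᶠ n in atTop, (∀ y ∈ K, ∃ q ∈ P n, dist q y < ε) ∧ ∀ p ∈ P n, ∃ y ∈ K, dist p y < ε := by
  filter_upwards [h.eventually (gt_mem_nhds hε)] with n hn
  have hPn : (P n).Nonempty := (hP n).2.mono interior_subset
  have hfin : Metric.hausdorffEDist (P n) K ≠ ∞ :=
    Metric.hausdorffEDist_ne_top_of_nonempty_of_bounded hPn hKn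
      (polytope_compact (hP n).1).isBounded hK.isBounded
  exact ⟨fun y hy => Metric.exists_dist_lt_of_hausdorffDist_lt' hy hn hfin,
    fun p hp => Metric.exists_dist_lt_of_hausdorffDist_lt hp hn hfin⟩

/-- the coordinate projections of a body are bounded by its contents -/
theorem volume_cp_le_body {d k : ℕ} {ι : Fin k → Fin d} (hι : Function.Injective ι)
    {K : Set (Eu d)} (hK : IsCompact K) (hKc : Convex ℝ K) (hKn : K.Nonempty) :
    volume (cp ι '' K) ≤ bodyContent k K := by
  refine le_iInf fun P => le_iInf fun hP => le_iInf fun hlim => ?_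
  have h1 : volume (cp ι '' K) ≤ liminf (fun n => volume (cp ι '' P n)) atTop := by
    apply volume_le_liminf (hKc.linear_image (cp ι))
    · exact fun n => (polytope_convex (hP n).1).linear_image (cp ι)
    · exact fun n => (polytope_compact (hP n).1).image (continuous_cp ι)
    · exact fun n => ((hP n).2.mono interior_subset).image _
    · intro ε hε
      filter_upwards [approx_of_tendsto hK hKn hP hlim hε] with n hn
      rintro _ ⟨y, hy, rfl⟩
      obtain ⟨q, hq, hqy⟩ := hn.1 y hy
      refine ⟨cp ι q, ⟨q, hq, rfl⟩, ?_⟩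
      rw [dist_eq_norm, ← map_sub]
      refine (norm_cp_le hι _).trans_lt ?_
      rwa [← dist_eq_norm]
  refine h1.trans (liminf_le_liminf (Eventually.of_forall fun n => ?_))
  exact volume_cp_le hι (hP n).1

theorem bodyContent_le_content {d k : ℕ} {P : Set (Eu d)} (hP : IsPolytope P) :
    bodyContent k P ≤ content k P := by
  refine (iInf_le _ (fun _ => P)).trans ((iInf_le _ (fun _ => hP)).trans
    ((iInf_le _ ?_).trans ?_))
  · simp only [Metric.hausdorffDist_self_zero]
    exact tendsto_const_nhds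
  · rw [liminf_const]

/-- the `d`-content of a body is at most its volume (inscribed polytopes) -/
theorem bodyContent_top_le {d : ℕ} {K : Set (Eu d)} (hK : IsCompact K) (hKc : Convex ℝ K)
    (hKi : (interior K).Nonempty) : bodyContent d K ≤ volume K := by
  classical
  obtain ⟨t, htK, hspan, hind⟩ := exists_affineIndependent ℝ (Eu d) K
  have htfin : t.Finite := finite_set_of_fin_dim_affineIndependent ℝ hind
  have htop : affineSpan ℝ t = ⊤ := by
    rw [hspan]
    exact hKc.interior_nonempty_iff_affineSpan_eq_top.1 hKi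
  have hnet : ∀ n : ℕ, ∃ s ⊆ K, s.Finite ∧ K ⊆ ⋃ y ∈ s, Metric.ball y (1 / ((n : ℝ) + 1)) :=
    fun n => Metric.finite_approx_of_totallyBounded hK.totallyBounded _ (by positivity)
  choose s hsK hsfin hs using hnet
  set P : ℕ → Set (Eu d) := fun n => convexHull ℝ (s n ∪ t) with hPdef
  have hsub : ∀ n, P n ⊆ K := fun n => convexHull_min (union_subset (hsK n) htK) hKc
  have hP : ∀ n, IsPolytope (P n) := by
    intro n
    refine ⟨⟨((hsfin n).union htfin).toFinset, by rw [Set.Finite.coe_toFinset]⟩, ?_⟩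
    rw [hPdef, interior_convexHull_nonempty_iff_affineSpan_eq_top]
    rw [eq_top_iff, ← htop]
    exact affineSpan_mono ℝ subset_union_right
  have hlim : Tendsto (fun n => Metric.hausdorffDist (P n) K) atTop (𝓝 0) := by
    refine squeeze_zero (fun n => Metric.hausdorffDist_nonneg) (fun n => ?_)
      tendsto_one_div_add_atTop_nhds_zero_nat
    apply Metric.hausdorffDist_le_of_mem_dist (by positivity)
    · intro x hx
      exact ⟨x, hsub n hx, by rw [dist_self]; positivity⟩
    · intro x hx
      obtain ⟨y, hy, hxy⟩ := mem_iUnion₂.1 (hs n hx)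
      exact ⟨y, subset_convexHull ℝ _ (Or.inl hy), (Metric.mem_ball.1 hxy).le⟩
  refine (iInf_le _ P).trans ((iInf_le _ hP).trans ((iInf_le _ hlim).trans ?_))
  refine (liminf_le_liminf (v := fun _ => volume K) (Eventually.of_forall fun n => ?_)).trans ?_
  · exact content_top_le.trans (measure_mono (hsub n))
  · rw [liminf_const]

/-- The inequality between the contents of a fat body. -/
theorem body_ineq {n : ℕ} (C₁ c₁ : ℝ) (hC₁ : 0 < C₁) (hc₁ : 0 < c₁) : ∃ C₂ : ℝ, 0 < C₂ ∧
    ∀ K : Set (Eu (n + 4)), IsBodyC1 K → ∀ τ : ℝ, 0 < τ →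
      bodyContent (n + 3) K ≤ ENNReal.ofReal (C₁ * τ ^ (n + 3)) →
      ENNReal.ofReal (c₁ * τ ^ (n + 4)) ≤ bodyContent (n + 4) K →
      bodyContent (n + 2) K ≤ ENNReal.ofReal (C₂ * τ) * bodyContent (n + 1) K := by
  obtain ⟨C₂, hC₂, h⟩ := diam_bound (m := n + 3) (by omega) hC₁ hc₁
  obtain ⟨A, hA, hsucc⟩ := exists_succ_const n
  refine ⟨A * (2 * C₂), by positivity, fun K hK τ hτ h1 h2 => ?_⟩
  obtain ⟨hKk, hKc, hKi, -⟩ := hK
  have hKn : K.Nonempty := hKi.mono interior_subset
  obtain ⟨x, hx⟩ := h K hKc hKk τ hτ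
    (fun i => (volume_cp_le_body Fin.succAbove_right_injective hKk hKc hKn).trans h1)
    (h2.trans (bodyContent_top_le hKk hKc hKi))
  set a := ENNReal.ofReal (A * (2 * C₂) * τ) with ha
  have ha0 : a ≠ 0 := by
    rw [ha, Ne, ENNReal.ofReal_eq_zero, not_le]
    positivity
  have hat : a ≠ ⊤ := ENNReal.ofReal_ne_top
  have key : ∀ (P : ℕ → Set (Eu (n + 4))) (_ : ∀ m, IsPolytope (P m))
      (_ : Tendsto (fun m => Metric.hausdorffDist (P m) K) atTop (𝓝 0)),
      bodyContent (n + 2) K ≤ a * liminf (fun m => content (n + 1) (P m)) atTop := by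
    intro P hP hlim
    refine (iInf_le _ P).trans ((iInf_le _ hP).trans ((iInf_le _ hlim).trans ?_))
    rw [← ENNReal.liminf_const_mul_of_ne_top hat]
    refine liminf_le_liminf ?_
    filter_upwards [approx_of_tendsto hKk hKn hP hlim (show 0 < C₂ * τ by positivity)] with m hm
    have h3 := hsucc (P m) (hP m).1 (2 * C₂ * τ) x (by
      intro p hp i
      obtain ⟨y, hy, hpy⟩ := hm.2 p hp
      have h4 := hx y hy i
      have h5 : |p i - y i| ≤ C₂ * τ := by
        have h6 := abs_coord_le (p - y) i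
        rw [← dist_eq_norm] at h6
        have h7 : (p - y) i = p i - y i := rfl
        rw [h7] at h6
        linarith
      have h8 : p i - x i = (p i - y i) + (y i - x i) := by ring
      rw [h8]
      refine (abs_add_le _ _).trans ?_
      linarith)
    refine h3.trans (le_of_eq ?_)
    rw [ha]
    congr 2
    ring
  have h9 : bodyContent (n + 2) K / a ≤ bodyContent (n + 1) K := by
    refine le_iInf fun P => le_iInf fun hP => le_iInf fun hlim => ?_
    rw [ENNReal.div_le_iff ha0 hat, mul_comm]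
    exact key P hP hlim
  rw [ENNReal.div_le_iff ha0 hat] at h9
  rwa [mul_comm]

/-- For `d = n + 4` the set `ζ(𝒞_1^d)` is not convex. -/
theorem zetaBodies_not_convex (n : ℕ) : ¬ Convex ℝ (zetaBodies (n + 4)) := by
  have h := not_convex_of (n := n)
    {c | ∃ K : Set (Eu (n + 4)), IsBodyC1 K ∧ c = fun k => bodyContent k K} ?_ ?_
  · intro hc
    apply h
    have e : {z : Fin (n + 4) → ℝ | ∃ c ∈ {c : ℕ → ℝ≥0∞ | ∃ K : Set (Eu (n + 4)), IsBodyC1 K ∧
        c = fun k => bodyContent k K}, IsZetaVector c z} = zetaBodies (n + 4) := by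
      ext z
      constructor
      · rintro ⟨c, ⟨K, hK, rfl⟩, hz⟩
        exact ⟨K, hK, hz⟩
      · rintro ⟨K, hK, hz⟩
        exact ⟨_, ⟨K, hK, rfl⟩, hz⟩
    rw [e]
    exact hc
  · intro C₁ c₁ hC₁ hc₁
    obtain ⟨C₂, hC₂, hd⟩ := body_ineq (n := n) C₁ c₁ hC₁ hc₁
    refine ⟨C₂, hC₂, ?_⟩
    rintro c ⟨K, hK, rfl⟩ τ hτ h1 h2
    exact hd K hK τ hτ h1 h2
  · obtain ⟨C, hC, hc⟩ := spx_content (n + 2)
    refine ⟨C, (1 / ((n + 4 : ℕ) : ℝ)) ^ (n + 4), hC, by positivity, fun δ hδ hδ1 => ?_⟩
    have hpoly : IsPolytope (convexHull ℝ (spx (wt (n + 2) δ) : Set (Eu (n + 2 + 2)))) :=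
      spx_polytope (by omega) (fun i => wt_pos hδ i)
    have hcomp := polytope_compact hpoly.1
    have hconv := polytope_convex hpoly.1
    have hne := hpoly.2.mono interior_subset
    refine ⟨_, ⟨convexHull ℝ (spx (wt (n + 2) δ) : Set (Eu (n + 2 + 2))),
      ⟨hcomp, hconv, hpoly.2, ?_⟩, rfl⟩, ?_, ?_, ?_, ?_⟩
    · exact ((bodyContent_le_content hpoly).trans (hc δ hδ hδ1 1 (by omega)).1).trans_lt
        ENNReal.ofReal_lt_top
    · intro k _ hk
      exact (bodyContent_le_content hpoly).trans (hc δ hδ hδ1 k hk).1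
    · exact (bodyContent_le_content hpoly).trans ((hc δ hδ hδ1 (n + 3) (by omega)).2 (by omega))
    · let ι : Fin (n + 2) → Fin (n + 4) := Fin.castLE (by omega)
      have hι : Function.Injective ι := Fin.castLE_injective _
      have h1 := spx_vol_low (n := n) (k := n + 2) (by omega) (ι := ι) (δ := δ)
        (fun j => by
          unfold wt
          rw [if_pos]
          exact j.2)
      refine h1.trans ((measure_mono (spx_proj_sup (by omega) hι (fun i => wt_pos hδ i))).trans ?_)
      exact volume_cp_le_body hι hcomp hconv hne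
    · rintro rfl
      have hι : Function.Injective (id : Fin (n + 4) → Fin (n + 4)) := Function.injective_id
      have h1 := spx_vol_low (n := n) (k := n + 4) le_rfl (ι := id) (δ := 1)
        (fun j => by
          unfold wt
          split_ifs <;> rfl)
      refine h1.trans ((measure_mono (spx_proj_sup (by omega) hι
        (fun i => wt_pos one_pos i))).trans ?_)
      exact volume_cp_le_body hι hcomp hconv hne

end Pool.Agent.H952R3.Zeta
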